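import Pool.Agent.K1H32.FE.Stm

/-! FE-19 (helper92): the modular group in `PSL(2, R)`. -/

set_option autoImplicit false

open Filter Topology MeasureTheory

namespace Pool.Agent.K1H92.FE

open Pool.Agent.K1H32.FE

/-- `SL(2, Z)` in `SL(2, R)` -/
abbrev mz : Matrix.SpecialLinearGroup (Fin 2) ℤ →* SL :=
  Matrix.SpecialLinearGroup.map (n := Fin 2) (Int.castRingHom ℝ)

/-- the projection -/
abbrev pj : SL →* PSL := QuotientGroup.mk' (Subgroup.center SL)

theorem mz_apply (g : Matrix.SpecialLinearGroup (Fin 2) ℤ) (i j : Fin 2) :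
    mz g i j = ((g i j : ℤ) : ℝ) := rfl

theorem uni_true : uni true = mz ModularGroup.T := by
  ext i j
  rw [mz_apply, ModularGroup.coe_T]
  fin_cases i <;> fin_cases j <;> simp [uni]

theorem uni_false : uni false = mz (ModularGroup.T * ModularGroup.S * ModularGroup.T) := by
  ext i j
  rw [mz_apply, Matrix.SpecialLinearGroup.coe_mul, Matrix.SpecialLinearGroup.coe_mul,
    ModularGroup.coe_T, ModularGroup.coe_S]
  fin_cases i <;> fin_cases j <;> simp [uni, Matrix.mul_apply, Fin.sum_univ_two]

theorem mod_eq : modPSL = Subgroup.closure {pj (mz ModularGroup.S), pj (mz ModularGroup.T)} := by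
  rw [modPSL, MonoidHom.range_eq_map, ← SpecialLinearGroup.SL2Z_generators,
    MonoidHom.map_closure, MonoidHom.map_closure, Set.image_pair, Set.image_pair]

theorem t_GEN : S_GEN := by
  have h1 : wd [true] = pj (mz ModularGroup.T) := by
    simp only [wd, List.map_cons, List.map_nil, List.prod_cons, List.prod_nil, mul_one]
    rw [uni_true]
    rfl
  have h2 : wd [false] = pj (mz ModularGroup.T) * pj (mz ModularGroup.S) *
      pj (mz ModularGroup.T) := by
    simp only [wd, List.map_cons, List.map_nil, List.prod_cons, List.prod_nil, mul_one]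
    rw [uni_false, ← map_mul, ← map_mul, ← map_mul, ← map_mul]
    rfl
  rw [S_GEN, mod_eq, h2, h1]
  have hT : pj (mz ModularGroup.T) ∈ Subgroup.closure {pj (mz ModularGroup.T),
      pj (mz ModularGroup.T) * pj (mz ModularGroup.S) * pj (mz ModularGroup.T)} :=
    Subgroup.subset_closure (by simp)
  have hL : pj (mz ModularGroup.T) * pj (mz ModularGroup.S) * pj (mz ModularGroup.T) ∈
      Subgroup.closure {pj (mz ModularGroup.T),
        pj (mz ModularGroup.T) * pj (mz ModularGroup.S) * pj (mz ModularGroup.T)} :=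
    Subgroup.subset_closure (by simp)
  have kT : pj (mz ModularGroup.T) ∈ Subgroup.closure {pj (mz ModularGroup.S),
      pj (mz ModularGroup.T)} := Subgroup.subset_closure (by simp)
  have kS : pj (mz ModularGroup.S) ∈ Subgroup.closure {pj (mz ModularGroup.S),
      pj (mz ModularGroup.T)} := Subgroup.subset_closure (by simp)
  refine le_antisymm ((Subgroup.closure_le _).2 ?_) ((Subgroup.closure_le _).2 ?_)
  · rintro x (rfl | rfl)
    · exact kT
    · exact mul_mem (mul_mem kT kS) kT
  · rintro x (rfl | rfl)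
    · have h := mul_mem (mul_mem (inv_mem hT) hL) (inv_mem hT)
      have this : (pj (mz ModularGroup.T))⁻¹ *
          (pj (mz ModularGroup.T) * pj (mz ModularGroup.S) * pj (mz ModularGroup.T)) *
          (pj (mz ModularGroup.T))⁻¹ = pj (mz ModularGroup.S) := by group
      rwa [this] at h
    · exact hT

theorem center_le : Subgroup.center SL ≤ mz.range := by
  intro A hA
  rw [Matrix.SpecialLinearGroup.mem_center_iff] at hA
  obtain ⟨r, hr, hA⟩ := hA
  rw [Fintype.card_fin] at hr
  have hr2 : (r - 1) * (r + 1) = 0 := by linear_combination hr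
  rcases mul_eq_zero.1 hr2 with h | h
  · have h1 : r = 1 := by linarith
    refine ⟨1, ?_⟩
    rw [map_one]
    apply Subtype.ext
    rw [← hA, h1]
    simp
  · have h1 : r = -1 := by linarith
    refine ⟨-1, ?_⟩
    apply Subtype.ext
    rw [← hA, h1]
    ext i j
    rw [mz_apply]
    fin_cases i <;> fin_cases j <;> simp

theorem t_fuchs : IsFuchsian modPSL := by
  have h1 : DiscreteTopology mz.range :=
    Matrix.SpecialLinearGroup.discreteSpecialLinearGroupIntRangeSL
  have h2 : IsOpen ({1} : Set mz.range) := isOpen_discrete _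
  obtain ⟨V, hV, hV1⟩ := isOpen_induced_iff.1 h2
  have h3 : IsOpen (pj '' V) := QuotientGroup.isOpenMap_coe V hV
  refine discreteTopology_of_isOpen_singleton_one ?_
  refine isOpen_induced_iff.2 ⟨pj '' V, h3, ?_⟩
  ext ⟨x, hx⟩
  constructor
  · rintro ⟨v, hv, hvx⟩
    obtain ⟨l, hl, hlx⟩ := hx
    have h4 : v ∈ mz.range := by
      have h5 : pj v = pj l := hvx.trans hlx.symm
      have h6 : v⁻¹ * l ∈ Subgroup.center SL := QuotientGroup.eq.1 h5
      have h7 := mul_mem hl (inv_mem (center_le h6))
      rwa [mul_inv_rev, inv_inv, mul_inv_cancel_left] at h7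
    have h5 : (⟨v, h4⟩ : mz.range) ∈ ((↑) : mz.range → SL) ⁻¹' V := hv
    rw [hV1, Set.mem_singleton_iff] at h5
    have h6 : v = 1 := congrArg Subtype.val h5
    rw [h6, map_one] at hvx
    exact Subtype.ext hvx.symm
  · intro h
    have h5 : (1 : mz.range) ∈ ((↑) : mz.range → SL) ⁻¹' V := by
      rw [hV1]
      rfl
    rw [Set.mem_singleton_iff] at h
    refine ⟨1, h5, ?_⟩
    rw [map_one]
    exact (congrArg Subtype.val h).symm

theorem t_vol : volume (ModularGroup.fd : Set UpperHalfPlane) < ⊤ := by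
  rw [UpperHalfPlane.volume_eq_lintegral]
  have hm : MeasurableSet ((↑) '' ModularGroup.fd : Set ℂ) :=
    ModularGroup.isClosed_coe_fd.measurableSet
  set f : ℝ → ENNReal := Set.indicator (Set.Icc (-(1 / 2)) (1 / 2)) 1 with hf
  set g : ℝ → ENNReal := Set.indicator (Set.Ioi (1 / 2)) (fun y => ‖y ^ (-2 : ℝ)‖ₑ) with hg
  have hfm : Measurable f := measurable_one.indicator measurableSet_Icc
  have hgm : Measurable g :=
    ((measurable_id.pow_const (-2 : ℝ)).enorm).indicator measurableSet_Ioi
  have h1 : ∫⁻ z : ℂ in (↑) '' ModularGroup.fd, ↑((1 / ‖z.im‖₊) ^ 2 : NNReal) ≤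
      ∫⁻ z : ℂ, f (Complex.measurableEquivRealProd z).1 * g (Complex.measurableEquivRealProd z).2 := by
    rw [← lintegral_indicator hm]
    refine lintegral_mono fun z => ?_
    by_cases hz : z ∈ ((↑) '' ModularGroup.fd : Set ℂ)
    · rw [Set.indicator_of_mem hz]
      rw [ModularGroup.coe_fd] at hz
      obtain ⟨hz1, hz2, hz3⟩ := hz
      rw [abs_le] at hz3
      have hz4 : 1 / 2 < z.im := by
        have h5 : 1 ≤ ‖z‖ ^ 2 := one_le_pow₀ hz2
        rw [← Complex.normSq_eq_norm_sq, Complex.normSq_apply] at h5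
        nlinarith
      have e1 : f (Complex.measurableEquivRealProd z).1 = 1 := by
        rw [Complex.measurableEquivRealProd_apply, hf, Set.indicator_of_mem]
        · rfl
        · exact ⟨by linarith [hz3.1], by linarith [hz3.2]⟩
      have e2 : g (Complex.measurableEquivRealProd z).2 = ‖z.im ^ (-2 : ℝ)‖ₑ := by
        rw [Complex.measurableEquivRealProd_apply, hg, Set.indicator_of_mem]
        exact hz4
      rw [e1, e2, one_mul, enorm_eq_nnnorm, ENNReal.coe_le_coe, ← NNReal.coe_le_coe]
      push_cast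
      rw [Real.norm_of_nonneg hz1.le, Real.norm_of_nonneg (Real.rpow_nonneg hz1.le _),
        Real.rpow_neg hz1.le, Real.rpow_two, one_div, inv_pow]
    · rw [Set.indicator_of_notMem hz]
      exact bot_le
  refine h1.trans_lt ?_
  rw [Complex.volume_preserving_equiv_real_prod.lintegral_comp
    (f := fun p : ℝ × ℝ => f p.1 * g p.2) (by fun_prop)]
  rw [Measure.volume_eq_prod, lintegral_prod_mul hfm.aemeasurable hgm.aemeasurable]
  refine ENNReal.mul_lt_top ?_ ?_
  · rw [hf, lintegral_indicator_one measurableSet_Icc, Real.volume_Icc]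
    exact ENNReal.ofReal_lt_top
  · rw [hg, lintegral_indicator measurableSet_Ioi]
    exact (integrableOn_Ioi_rpow_of_lt (by norm_num) (by norm_num)).2

theorem t_cov : FiniteCovolume modPSL := by
  refine ⟨ModularGroup.fd, ModularGroup.isClosed_fd.measurableSet, t_vol, fun z => ?_⟩
  obtain ⟨g, hg⟩ := ModularGroup.exists_smul_mem_fd z
  refine ⟨mz g, ⟨mz g, ⟨g, rfl⟩, rfl⟩, ?_⟩
  have : mz g • z = g • z := by
    show Matrix.SpecialLinearGroup.mapGL ℝ (mz g) • z = Matrix.SpecialLinearGroup.mapGL ℝ g • z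
    rfl
  rw [this]
  exact hg

theorem t_MOD : S_MOD := ⟨t_fuchs, t_cov⟩

end Pool.Agent.K1H92.FE
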